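import Pool.Agent.H200M.Stm2

/-! Project MC, job MERGE. -/

set_option autoImplicit false

namespace Pool.Agent.Q26.MC

open Pool.Agent.H200M

lemma sum_nonpos' {α : Type} (g : α → ℝ) (N : List α) (h1 : ∀ x ∈ N, g x ≤ 0) :
    (N.map g).sum ≤ 0 := by
  induction N with
  | nil => simp
  | cons a N ih =>
    rw [List.map_cons, List.sum_cons]
    have h3 := h1 a List.mem_cons_self
    have h4 := ih fun y hy => h1 y (List.mem_cons_of_mem _ hy)
    linarith

lemma sum_nonneg_zero {α : Type} (g : α → ℝ) (N : List α) (h1 : ∀ x ∈ N, g x ≤ 0)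
    (h2 : 0 ≤ (N.map g).sum) : ∀ x ∈ N, g x = 0 := by
  induction N with
  | nil => intro x hx; simp at hx
  | cons a N ih =>
    rw [List.map_cons, List.sum_cons] at h2
    have h3 := h1 a List.mem_cons_self
    have h4 : (N.map g).sum ≤ 0 := sum_nonpos' g N fun x hx => h1 x (List.mem_cons_of_mem _ hx)
    intro x hx
    rcases List.mem_cons.1 hx with h | h
    · rw [h]; linarith
    · exact ih (fun y hy => h1 y (List.mem_cons_of_mem _ hy)) (by linarith) x h

lemma merge_aux {α : Type} (g : α → ℝ) (A B : ℝ) : ∀ (n : ℕ) (P N : List α),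
    P.length + N.length = n → (∀ x ∈ P, 0 ≤ g x ∧ g x ≤ A) → (∀ x ∈ N, -B ≤ g x ∧ g x ≤ 0) →
    ∀ c : ℝ, -B ≤ c → c ≤ A → c + (P.map g).sum + (N.map g).sum = 0 →
    ∃ L : List α, L.Perm (P ++ N) ∧
      ∀ L1 L2 : List α, L = L1 ++ L2 → -B ≤ c + (L1.map g).sum ∧ c + (L1.map g).sum ≤ A := by
  intro n
  induction n with
  | zero =>
    intro P N hn hP hN c hc1 hc2 hsum
    have hP0 : P = [] := List.length_eq_zero_iff.1 (by omega)
    have hN0 : N = [] := List.length_eq_zero_iff.1 (by omega)
    subst hP0 hN0
    refine ⟨[], List.Perm.refl _, fun L1 L2 h => ?_⟩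
    have h1 : L1 = [] := (List.append_eq_nil_iff.1 h.symm).1
    subst h1
    simpa using ⟨hc1, hc2⟩
  | succ n ih =>
    intro P N hn hP hN c hc1 hc2 hsum
    have key : ∀ (x : α) (P' N' : List α), P'.length + N'.length = n →
        (∀ x ∈ P', 0 ≤ g x ∧ g x ≤ A) → (∀ x ∈ N', -B ≤ g x ∧ g x ≤ 0) →
        -B ≤ c + g x → c + g x ≤ A → (x :: (P' ++ N')).Perm (P ++ N) →
        ∃ L : List α, L.Perm (P ++ N) ∧
          ∀ L1 L2 : List α, L = L1 ++ L2 → -B ≤ c + (L1.map g).sum ∧ c + (L1.map g).sum ≤ A := by
      intro x P' N' hl hP' hN' h1 h2 hperm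
      have hs : c + g x + (P'.map g).sum + (N'.map g).sum = 0 := by
        have h3 := (hperm.map g).sum_eq
        simp only [List.map_cons, List.sum_cons, List.map_append, List.sum_append] at h3
        linarith
      obtain ⟨L, hL, hL2⟩ := ih P' N' hl hP' hN' (c + g x) h1 h2 hs
      refine ⟨x :: L, (hL.cons x).trans hperm, fun L1 L2 h => ?_⟩
      cases L1 with
      | nil => simpa using ⟨hc1, hc2⟩
      | cons y L1 =>
        rw [List.cons_append, List.cons.injEq] at h
        obtain ⟨h3, h4⟩ := h
        subst h3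
        have h5 := hL2 L1 L2 h4
        rw [List.map_cons, List.sum_cons, ← add_assoc]
        exact h5
    by_cases hc : c ≤ 0
    · cases P with
      | cons x P' =>
        have hx := hP x List.mem_cons_self
        refine key x P' N ?_ (fun y hy => hP y (List.mem_cons_of_mem _ hy)) hN (by linarith)
          (by linarith) (List.Perm.refl _)
        rw [List.length_cons] at hn
        omega
      | nil =>
        simp only [List.map_nil, List.sum_nil, add_zero] at hsum
        have h0 : (N.map g).sum = -c := by linarith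
        have hz := sum_nonneg_zero g N (fun x hx => (hN x hx).2) (by linarith)
        refine ⟨N, List.Perm.refl _, fun L1 L2 h => ?_⟩
        have h5 : (L1.map g).sum = 0 := by
          refine List.sum_eq_zero fun y hy => ?_
          obtain ⟨x, hx, rfl⟩ := List.mem_map.1 hy
          exact hz x (by rw [h]; exact List.mem_append_left _ hx)
        rw [h5, add_zero]
        exact ⟨hc1, hc2⟩
    · push Not at hc
      cases N with
      | cons x N' =>
        have hx := hN x List.mem_cons_self
        refine key x P N' ?_ hP (fun y hy => hN y (List.mem_cons_of_mem _ hy)) (by linarith)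
          (by linarith) List.perm_middle.symm
        rw [List.length_cons] at hn
        omega
      | nil =>
        exfalso
        simp only [List.map_nil, List.sum_nil, add_zero] at hsum
        have : 0 ≤ (P.map g).sum := List.sum_nonneg fun y hy => by
          obtain ⟨x, hx, rfl⟩ := List.mem_map.1 hy
          exact (hP x hx).1
        linarith

theorem merge : S_Merge := by
  intro α g A B P N hA hB hP hN hsum
  obtain ⟨L, hL, h⟩ := merge_aux g A B _ P N rfl hP hN 0 (by linarith) hA (by linarith)
  exact ⟨L, hL, fun L1 L2 h1 => by simpa using h L1 L2 h1⟩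

end Pool.Agent.Q26.MC
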