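import Pool.Agent.H200M.Stm

/-! Project MC, job BOX. -/

set_option autoImplicit false

namespace Pool.Agent.Q26.MC

open Finset Pool.Agent.TH176.Nag Pool.Agent.TH603.Sur Pool.Agent.TH2.NU Pool.Agent.TH641.UM
open Pool.Agent.Y205.FW Pool.Agent.Y205.MD Pool.Agent.H200W Pool.Agent.H200P Pool.Agent.H200M

theorem boxT : S_BoxT := by
  intro h u G w b M M' h1 h2 h3 h4 h5 h6 h7 h8 h9
  refine ⟨(p_boxS h1 h2 h3 h4 h5 h6 h7 h8 h9).mono le_rfl fun K hK => ?_,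
    (p_boxE h1 h2 h3 h4 h5 h6 h7 h8 h9).mono le_rfl fun K hK => ?_⟩
  · unfold SurM at hK ⊢
    refine hK.comap 0 1 1 0 0 0 (by norm_num) ?_
    rintro ⟨x, y⟩ ⟨e1, e2, e3, e4⟩
    exact ⟨(y, x), ⟨e2, e1, e4, e3⟩, by simp⟩
  · unfold EmpM at hK ⊢
    refine hK.comap 0 1 1 0 0 0 (by norm_num) ?_
    rintro ⟨x, y⟩ ⟨e1, e2, e3, e4⟩
    simpa using ⟨e2, e1, e4, e3⟩

end Pool.Agent.Q26.MC
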